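import Pool.Agent.helper65.GD.Spec

/-!
# Row gdm:VHB: variance of `h` (statement by helper65)
-/

set_option autoImplicit false

namespace Pool.Agent.GD

open Finset Metric Filter Topology

/-- `E|h - m|² = E|h|² - |m|²` if `m = E h`. -/
theorem VHB_var {N : ℕ} (w : Fin N → ℝ) (h : Fin N → ℂ) (m : ℂ) (hw : ∑ l, w l = 1)
    (hm : ∑ l, (w l : ℂ) * h l = m) :
    ∑ l, w l * ‖h l - m‖ ^ 2 = ∑ l, w l * ‖h l‖ ^ 2 - ‖m‖ ^ 2 := by
  have e1 : ∀ l, w l * ‖h l - m‖ ^ 2 = w l * ‖h l‖ ^ 2 + w l * ‖m‖ ^ 2 -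
      2 * ((w l : ℂ) * h l * (starRingEnd ℂ) m).re := by
    intro l
    have e2 : ((w l : ℂ) * h l * (starRingEnd ℂ) m).re = w l * (h l * (starRingEnd ℂ) m).re := by
      rw [mul_assoc, Complex.re_ofReal_mul]
    rw [e2, Complex.sq_norm, Complex.sq_norm, Complex.sq_norm, Complex.normSq_sub]
    ring
  rw [Finset.sum_congr rfl fun l _ => e1 l, Finset.sum_sub_distrib, Finset.sum_add_distrib,
    ← Finset.sum_mul, hw, ← Finset.mul_sum, ← Complex.re_sum, ← Finset.sum_mul, hm,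
    Complex.mul_conj, Complex.ofReal_re, ← Complex.sq_norm]
  ring

theorem VHB_num (p : ℕ) : ∀ i : ℕ,
    4 * (p : ℝ) * ∑ m ∈ range i, ((p : ℝ) - m) * (((2 * p).choose m : ℕ) : ℝ) ^ 2 =
      (i : ℝ) ^ 2 * (((2 * p).choose i : ℕ) : ℝ) ^ 2 := by
  intro i
  induction i with
  | zero => simp
  | succ i ih =>
    have h1 : ((2 * p).choose (i + 1) : ℝ) * ((i : ℝ) + 1) =
        ((2 * p).choose i : ℝ) * (2 * (p : ℝ) - i) := by
      have h2 := Nat.choose_succ_right_eq (2 * p) i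
      rcases le_or_gt i (2 * p) with h | h
      · have h3 : (((2 * p).choose (i + 1) * (i + 1) : ℕ) : ℝ) =
            (((2 * p).choose i * (2 * p - i) : ℕ) : ℝ) := by rw [h2]
        rw [Nat.cast_mul, Nat.cast_mul, Nat.cast_sub h] at h3
        push_cast at h3
        exact h3
      · rw [Nat.choose_eq_zero_of_lt h, Nat.choose_eq_zero_of_lt (by omega)]
        simp
    rw [Finset.sum_range_succ, mul_add, ih]
    push_cast
    linear_combination (-(((2 * p).choose (i + 1) : ℝ) * ((i : ℝ) + 1)) -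
      ((2 * p).choose i : ℝ) * (2 * (p : ℝ) - i)) * h1

theorem VHB_V (hEGM : EGM_stmt) (hQFM : QFM_stmt) (p N : ℕ) (w : Fin N → ℝ) (x : Fin N → ℂ)
    (H : ℕ → ℂ) (i : ℕ) (hp : 1 ≤ p) (hA : Atomic N w x) (hR : Rec (-(2 * p)) (mom w x) H) :
    ∑ l, w l * ‖pol H i (x l) - ((p : ℂ) - i) / p * H i‖ ^ 2 =
      -((i : ℝ) / p) ^ 2 * ‖H i‖ ^ 2 +
        4 / (p : ℝ) * ∑ m ∈ range i, ((p : ℝ) - m) * ‖H m‖ ^ 2 := by
  have hp0 : (p : ℝ) ≠ 0 := Nat.cast_ne_zero.2 (by omega)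
  have hp0c : (p : ℂ) ≠ 0 := Nat.cast_ne_zero.2 (by omega)
  have h1 := hEGM (-(2 * p)) N w x H i hA hR
  have hm : ∑ l, (w l : ℂ) * pol H i (x l) = ((p : ℂ) - i) / p * H i := by
    have h2 : (-(2 * (p : ℂ))) ≠ 0 := neg_ne_zero.2 (mul_ne_zero two_ne_zero hp0c)
    apply mul_left_cancel₀ h2
    rw [h1]
    field_simp
    ring
  have hR' : Rec (((-(2 * (p : ℝ)) : ℝ)) : ℂ) (mom w x) H := by
    have e : (((-(2 * (p : ℝ)) : ℝ)) : ℂ) = -(2 * (p : ℂ)) := by push_cast; ring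
    rw [e]
    exact hR
  have h3 := hQFM (-(2 * (p : ℝ))) N w x H i hA hR'
  rw [VHB_var w (fun l => pol H i (x l)) _ hA.2.1 hm]
  have h4 : ‖((p : ℂ) - i) / p * H i‖ ^ 2 = (((p : ℝ) - i) / p) ^ 2 * ‖H i‖ ^ 2 := by
    rw [norm_mul, mul_pow]
    congr 1
    have e : ((p : ℂ) - i) / p = ((((p : ℝ) - i) / p : ℝ) : ℂ) := by push_cast; ring
    rw [e, Complex.norm_real, Real.norm_eq_abs, sq_abs]
  rw [h4]
  have h5 : ∑ m ∈ range i, (-(2 * (p : ℝ)) + 2 * m) * ‖H m‖ ^ 2 =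
      -2 * ∑ m ∈ range i, ((p : ℝ) - m) * ‖H m‖ ^ 2 := by
    rw [Finset.mul_sum]
    exact Finset.sum_congr rfl fun m _ => by ring
  rw [h5] at h3
  have h6 : ∑ l, w l * ‖pol H i (x l)‖ ^ 2 = (((p : ℝ) - 2 * i) / p) * ‖H i‖ ^ 2 +
      4 / (p : ℝ) * ∑ m ∈ range i, ((p : ℝ) - m) * ‖H m‖ ^ 2 := by
    have h2 : (-(2 * (p : ℝ))) ≠ 0 := neg_ne_zero.2 (mul_ne_zero two_ne_zero hp0)
    apply mul_left_cancel₀ h2
    rw [h3]
    field_simp
    ring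
  rw [h6]
  field_simp
  ring

theorem VHB (hEGM : EGM_stmt) (hQFM : QFM_stmt) : VHB_stmt := by
  intro p N w x H i hp hi hA hR
  have hp0 : (0 : ℝ) < p := Nat.cast_pos.2 (by omega)
  have hsum : ∀ i, i ≤ p → (∀ m, m < i → ‖H m‖ ≤ ((2 * p).choose m : ℝ)) →
      4 / (p : ℝ) * ∑ m ∈ range i, ((p : ℝ) - m) * ‖H m‖ ^ 2 ≤
        ((i : ℝ) / p) ^ 2 * ((2 * p).choose i : ℝ) ^ 2 := by
    intro i hi ih
    have h1 : ∑ m ∈ range i, ((p : ℝ) - m) * ‖H m‖ ^ 2 ≤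
        ∑ m ∈ range i, ((p : ℝ) - m) * ((2 * p).choose m : ℝ) ^ 2 := by
      refine Finset.sum_le_sum fun m hm => ?_
      rw [Finset.mem_range] at hm
      have hm2 : (0 : ℝ) ≤ (p : ℝ) - m := by
        have : (m : ℝ) ≤ p := Nat.cast_le.2 (by omega)
        linarith
      exact mul_le_mul_of_nonneg_left (pow_le_pow_left₀ (norm_nonneg _) (ih m hm) 2) hm2
    have h2 := VHB_num p i
    have h3 : ((i : ℝ) / p) ^ 2 * ((2 * p).choose i : ℝ) ^ 2 =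
        4 / (p : ℝ) * ∑ m ∈ range i, ((p : ℝ) - m) * ((2 * p).choose m : ℝ) ^ 2 := by
      rw [div_pow, div_mul_eq_mul_div, ← h2]
      field_simp
    rw [h3]
    exact mul_le_mul_of_nonneg_left h1 (by positivity)
  have hV : ∀ i : ℕ, 0 ≤ -((i : ℝ) / p) ^ 2 * ‖H i‖ ^ 2 +
      4 / (p : ℝ) * ∑ m ∈ range i, ((p : ℝ) - m) * ‖H m‖ ^ 2 := by
    intro i
    rw [← VHB_V hEGM hQFM p N w x H i hp hA hR]
    exact Finset.sum_nonneg fun l _ => mul_nonneg (hA.1 l) (sq_nonneg _)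
  have hb : ∀ i, i ≤ p → ‖H i‖ ≤ ((2 * p).choose i : ℝ) := by
    intro i
    induction i using Nat.strong_induction_on with
    | _ i ih =>
      intro hi
      rcases Nat.eq_zero_or_pos i with h0 | h0
      · subst h0
        rw [hR.1, norm_one, Nat.choose_zero_right, Nat.cast_one]
      · have h1 := hsum i hi fun m hm => ih m hm (by omega)
        have h2 := hV i
        have hi0 : (0 : ℝ) < i := Nat.cast_pos.2 h0
        have h3 : (0 : ℝ) < ((i : ℝ) / p) ^ 2 := by positivity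
        have h4 : ((i : ℝ) / p) ^ 2 * ‖H i‖ ^ 2 ≤ ((i : ℝ) / p) ^ 2 *
            ((2 * p).choose i : ℝ) ^ 2 := by linarith
        have h5 := le_of_mul_le_mul_left h4 h3
        exact (sq_le_sq₀ (norm_nonneg _) (Nat.cast_nonneg _)).1 h5
  refine ⟨hb i hi, ?_⟩
  rw [VHB_V hEGM hQFM p N w x H i hp hA hR]
  have h1 := hsum i hi fun m hm => hb m (by omega)
  linarith

end Pool.Agent.GD
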